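import Pool.Agent.H33.HH.TC
import Pool.Agent.H86.CV.DV

/-! GAP: the off-diagonal sum is close to its main term. -/

set_option autoImplicit false

open NumberField Complex Filter Topology MeasureTheory
open scoped ContDiff nonZeroDivisors

namespace Pool.Agent.H8.HH

open Pool.Agent.H28.RC Pool.Agent.H37.CV Pool.Agent.H33.HH

section basic

variable {K : Type} [Field K] [NumberField K]

theorem gap_nm_mul (I J : Ideal (𝓞 K)) : nm (I * J) = nm I * nm J := by
  simp [nm, map_mul]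

theorem gap_nm_one {I : Ideal (𝓞 K)} (h : I ≠ ⊥) : 1 ≤ nm I := by
  have h1 : Ideal.absNorm I ≠ 0 := by
    rw [Ne, Ideal.absNorm_eq_zero_iff]
    exact h
  unfold nm
  exact_mod_cast Nat.one_le_iff_ne_zero.mpr h1

theorem gap_Cp_mul {P : ℝ} {I J : Ideal (𝓞 K)} (hI : Cp P I) (hJ : Cp P J) : Cp P (I * J) := by
  intro p hp
  rcases (Ideal.IsPrime.mul_le p.2.1).mp hp with h | h
  · exact hI p h
  · exact hJ p h

/-- finite sets which contain all the ideals of bounded norm -/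
theorem gap_count : ∃ C : ℝ, 1 ≤ C ∧ ∀ x : ℝ, 1 ≤ x → ∃ X : Finset (NI K),
    (∀ I : NI K, nm I.1 ≤ x → I ∈ X) ∧ (X.card : ℝ) ≤ C * x := by
  obtain ⟨C, hC⟩ := (Pool.Agent.H86.CV.pf_DV K).2
  refine ⟨max C 1, le_max_right _ _, fun x hx => ?_⟩
  have hfin : {I : NI K | nm I.1 ≤ x}.Finite := by
    have h1 : {I : Ideal (𝓞 K) | nm I ≤ x}.Finite := by
      refine (Ideal.finite_setOfPred_absNorm_le (S := 𝓞 K) ⌊x⌋₊).subset fun I hI => ?_
      exact Nat.le_floor hI
    exact h1.preimage Subtype.val_injective.injOn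
  refine ⟨hfin.toFinset, fun I hI => hfin.mem_toFinset.mpr hI, ?_⟩
  have h2 := (hC x (hfin.toFinset.map ⟨Subtype.val, Subtype.val_injective⟩) hx (by
    intro I hI
    rw [Finset.mem_map] at hI
    obtain ⟨J, hJ, rfl⟩ := hI
    exact ⟨J.2, hfin.mem_toFinset.mp hJ⟩)).1
  rw [Finset.card_map] at h2
  exact h2.trans (mul_le_mul_of_nonneg_right (le_max_left _ _) (by linarith))

end basic

/-- the difference of two sums of finite support -/
theorem gap_sub {ι : Type} (f g : ι → ℝ) (X : Finset ι) (E : ℝ) (hf : ∀ i, i ∉ X → f i = 0)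
    (hg : ∀ i, i ∉ X → g i = 0) (h : ∀ i, |f i - g i| ≤ E) :
    |(∑' i, f i) - ∑' i, g i| ≤ X.card * E := by
  rw [tsum_eq_sum (s := X) (fun i hi => hf i hi), tsum_eq_sum (s := X) (fun i hi => hg i hi),
    ← Finset.sum_sub_distrib]
  refine (Finset.abs_sum_le_sum_abs _ _).trans ?_
  refine (Finset.sum_le_sum fun i _ => h i).trans ?_
  rw [Finset.sum_const, nsmul_eq_mul]

/-- the weight is bounded -/
theorem gap_G {G : ℝ → ℝ} (hG : IsG G) : ∃ C : ℝ, 1 ≤ C ∧ ∀ u, |G u| ≤ C := by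
  obtain ⟨C, hC⟩ := isCompact_Icc.exists_bound_of_continuousOn (s := Set.Icc (1 : ℝ) 3)
    hG.smooth.continuous.continuousOn
  refine ⟨max C 1, le_max_right _ _, fun u => ?_⟩
  rcases le_total u 1 with h | h
  · rw [hG.low u h, abs_one]
    exact le_max_right _ _
  · rcases le_total u 3 with h' | h'
    · exact (hC u ⟨h, h'⟩).trans (le_max_left _ _)
    · rw [hG.high u h', abs_zero]
      exact zero_le_one.trans (le_max_right _ _)

theorem gap_zero {G : ℝ → ℝ} (hG : IsG G) {Z u : ℝ} (hZ : 0 < Z) (h : 3 * Z < u) :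
    G (u / Z) = 0 := by
  refine hG.high _ ?_
  rw [le_div_iff₀ hZ]
  exact h.le

/-- the prefactor -/
theorem gap_pre {a b x : ℝ} (ha : 0 < a) (hb : 0 < b) (hx : 0 < x) :
    (a * b) ^ (-(1 / 2) : ℝ) * (a / (b * x)) ^ (1 / 2 : ℝ) * x ^ (-(1 / 2) : ℝ) = 1 / (b * x) := by
  rw [Real.rpow_neg (by positivity), Real.rpow_neg (by positivity), Real.mul_rpow ha.le hb.le,
    Real.div_rpow ha.le (by positivity), Real.mul_rpow hb.le hx.le]
  have h1 : (a ^ (1 / 2 : ℝ)) ≠ 0 := (Real.rpow_pos_of_pos ha _).ne'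
  have h2 : 0 < b ^ (1 / 2 : ℝ) := Real.rpow_pos_of_pos hb _
  have h3 : 0 < x ^ (1 / 2 : ℝ) := Real.rpow_pos_of_pos hx _
  have h4 : b ^ (1 / 2 : ℝ) * b ^ (1 / 2 : ℝ) = b := by
    rw [← Real.rpow_add hb]
    norm_num
  have h5 : x ^ (1 / 2 : ℝ) * x ^ (1 / 2 : ℝ) = x := by
    rw [← Real.rpow_add hx]
    norm_num
  rw [eq_div_iff (by positivity)]
  have h6 : (a ^ (1 / 2 : ℝ) * b ^ (1 / 2 : ℝ))⁻¹ * (a ^ (1 / 2 : ℝ) /
      (b ^ (1 / 2 : ℝ) * x ^ (1 / 2 : ℝ))) * (x ^ (1 / 2 : ℝ))⁻¹ *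
      ((b ^ (1 / 2 : ℝ) * b ^ (1 / 2 : ℝ)) * (x ^ (1 / 2 : ℝ) * x ^ (1 / 2 : ℝ))) = 1 := by
    field_simp
  rwa [h4, h5] at h6

/-- the function of `γ` -/
noncomputable def gapΦ (W G H : ℝ → ℝ) (x t v : ℝ) (g : ℂ) : ℝ :=
  H (‖g‖ ^ 2) * G (‖g‖ ^ 2 * t) * w1 W (‖g - 1‖ ^ 2 * x / v)

section one

variable {K : Type} [Field K] [NumberField K]

/-- the inner sums for one `n` -/
theorem gap_one (P : ℝ) (W G H : ℝ → ℝ) (k b' : Ideal (𝓞 K)) (S : Finset (PrI K))
    (Q x t pre D E L : ℝ) (hD : 0 ≤ D) (Y : Finset (NI K))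
    (hY : ∀ I : NI K, nm I.1 ≤ L → I ∈ Y) (hpre : |pre| ≤ D)
    (hv : ∀ (l : NI K) (g : ℂ), gapΦ W G H x t (nm l.1 * Q) g ≠ 0 → nm l.1 ≤ L)
    (c : NI K → ℝ)
    (h1 : ∀ l : NI K, |(∑' γ : Ga P (idS S) b' (k * l.1), gapΦ W G H x t (nm l.1 * Q) (em K γ.1)) -
      c l * ∫ g : ℂ, gapΦ W G H x t (nm l.1 * Q) g| ≤ E) :
    |(∑' l : NI K, pre * ∑' γ : Ga P (idS S) b' (k * l.1),
        gapΦ W G H x t (nm l.1 * Q) (em K γ.1)) -
      ∑' l : NI K, pre * (c l * ∫ g : ℂ, gapΦ W G H x t (nm l.1 * Q) g)| ≤ Y.card * (D * E) := by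
  have hz : ∀ l : NI K, l ∉ Y → ∀ g : ℂ, gapΦ W G H x t (nm l.1 * Q) g = 0 := by
    intro l hl g
    by_contra h
    exact hl (hY l (hv l g h))
  refine gap_sub _ _ Y (D * E) ?_ ?_ ?_
  · intro l hl
    have : (fun γ : Ga P (idS S) b' (k * l.1) => gapΦ W G H x t (nm l.1 * Q) (em K γ.1)) =
        fun _ => 0 := by
      funext γ
      exact hz l hl _
    rw [this, tsum_zero, mul_zero]
  · intro l hl
    have : (fun g : ℂ => gapΦ W G H x t (nm l.1 * Q) g) = fun _ => 0 := by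
      funext g
      exact hz l hl _
    rw [this, integral_zero, mul_zero, mul_zero]
  · intro l
    rw [← mul_sub, abs_mul]
    exact mul_le_mul hpre (h1 l) (abs_nonneg _) hD

end one

/-- GAP: the off-diagonal sum is close to its main term. -/
theorem pf_GAP (h1 : T_GA1) (h2 : T_GA2) (h3 : T_GA3) (h4 : T_IDF) : T_GAP := by
  classical
  intro K _ _ _ P W G H k θ e hSP hW hG hH hkS hP
  have hθ := hP.θpos
  have he := hP.epos
  have hθ1 : θ < 1 := by
    have := hP.le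
    linarith
  have hκ : 0 < 1 - θ := by linarith
  obtain ⟨j₀, hj₀⟩ := exists_nat_ge (2 + 2 * ((3 + θ + 2 * e) / (1 - θ)))
  have hj2 : 2 ≤ j₀ + 2 := by omega
  have hj : 3 + θ + 2 * e ≤ (1 - θ) * (((j₀ + 2 : ℕ) : ℝ) / 2 - 1) := by
    have h5 : (3 + θ + 2 * e) / (1 - θ) ≤ ((j₀ + 2 : ℕ) : ℝ) / 2 - 1 := by
      push_cast
      linarith
    rwa [div_le_iff₀' hκ] at h5
  obtain ⟨C₁, hC₁, H1⟩ := h1 K P W G H k (j₀ + 2) hSP hW hG hH hkS hj2
  obtain ⟨C₂, hC₂, H2⟩ := h2 W G H hW hG hH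
  obtain ⟨CD, hCD, HD⟩ := gap_count (K := K)
  obtain ⟨CG, hCG, HG⟩ := gap_G hG
  set j : ℝ := ((j₀ + 2 : ℕ) : ℝ) with hjdef
  have hk1 : 1 ≤ nm k := gap_nm_one hkS.1
  have hN0 : 0 ≤ nS np (SP K P) := Finset.prod_nonneg fun p _ =>
    zero_le_one.trans (gap_nm_one p.2.2)
  refine ⟨3 * CD * CD * (4 * C₂ + 1) * CG * C₁, max 1 (nS np (SP K P) ^ (1 / (1 - θ))), by positivity,
    le_max_left _ _, ?_⟩
  intro Q hQ S hS T hT
  have hQ1 : 1 ≤ Q := (le_max_left _ _).trans hQ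
  have hQ0 : 0 < Q := by linarith
  have hy : 1 ≤ Q ^ θ := Real.one_le_rpow hQ1 hθ.le
  have hZ1 : 1 ≤ Q ^ (1 + e) := Real.one_le_rpow hQ1 (by linarith)
  set Z : ℝ := Q ^ (1 + e) with hZdef
  have hZ0 : 0 < Z := by linarith
  have hNQ : nS np (SP K P) * Q ^ θ ≤ Q := by
    have h5 : nS np (SP K P) ≤ Q ^ (1 - θ) := by
      have h6 : (nS np (SP K P) ^ (1 / (1 - θ))) ^ (1 - θ) ≤ Q ^ (1 - θ) :=
        Real.rpow_le_rpow (Real.rpow_nonneg hN0 _) ((le_max_right _ _).trans hQ) hκ.le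
      rwa [← Real.rpow_mul hN0, one_div, inv_mul_cancel₀ hκ.ne', Real.rpow_one] at h6
    calc nS np (SP K P) * Q ^ θ ≤ Q ^ (1 - θ) * Q ^ θ :=
          mul_le_mul_of_nonneg_right h5 (by positivity)
      _ = Q := by
          rw [← Real.rpow_add hQ0]
          ring_nf
          exact Real.rpow_one Q
  obtain ⟨ha0, haC, haN, hs1, hsy, -, -, -⟩ := h4 K P (Q ^ θ) hy S hS
  obtain ⟨hb0, hbC, hbN, ht1, hty, -, -, -⟩ := h4 K P (Q ^ θ) hy T hT
  have hs0 : 0 < nS np S := by linarith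
  have ht0 : 0 < nS np T := by linarith
  obtain ⟨X, hX, hXc⟩ := HD (3 * Z) (by linarith)
  have hL1 : 1 ≤ (4 * C₂ + 1) * Q ^ (θ + e) := by
    have h5 : 1 ≤ Q ^ (θ + e) := Real.one_le_rpow hQ1 (by linarith)
    nlinarith
  obtain ⟨Y, hY, hYc⟩ := HD ((4 * C₂ + 1) * Q ^ (θ + e)) hL1
  -- the two functions of n
  set fO : NI K → ℝ := fun n => if Cp P n.1 then
    ∑' l : NI K, (G (nm n.1 / Z) * Q / (nS np T * nm n.1)) *
      ∑' γ : Ga P (idS S) (idS T * n.1) (k * l.1), gapΦ W G H (nS np T * nm n.1 / nm k)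
        (nS np T * nm n.1 / (nS np S * Z)) (nm l.1 * Q) (em K γ.1) else 0 with hfO
  set fN : NI K → ℝ := fun n => if Cp P n.1 then
    ∑' l : NI K, (G (nm n.1 / Z) * Q / (nS np T * nm n.1)) *
      (gs P S (idS T * n.1) k l.1 * (2 / sd K) *
        (nm (idS T * n.1) / (nS np S * nm k * nm l.1)) *
      ∫ g : ℂ, gapΦ W G H (nS np T * nm n.1 / nm k)
        (nS np T * nm n.1 / (nS np S * Z)) (nm l.1 * Q) g) else 0 with hfN
  have hO : (nS np S * nS np T) ^ (-(1 / 2) : ℝ) * Oab P Z Q W G H k (idS S) (idS T) =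
      ∑' n, fO n := by
    unfold Oab sumC
    rw [← tsum_mul_left]
    refine tsum_congr fun n => ?_
    rw [hfO]
    dsimp only
    split_ifs with hc
    · have hn1 : 1 ≤ nm n.1 := gap_nm_one n.2
      have hn0 : 0 < nm n.1 := by linarith
      rw [← tsum_mul_left]
      refine tsum_congr fun l => ?_
      have hl1 : 1 ≤ nm l.1 := gap_nm_one l.2
      rw [← tsum_mul_left, ← tsum_mul_left]
      refine tsum_congr fun γ => ?_
      have hp := gap_pre hs0 ht0 hn0
      unfold gz gapΦ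
      rw [haN, hbN]
      have e1 : ‖em K γ.1‖ ^ 2 * (nS np T * nm n.1) / (nS np S * Z) =
          ‖em K γ.1‖ ^ 2 * (nS np T * nm n.1 / (nS np S * Z)) := mul_div_assoc _ _ _
      have e2 : ‖em K γ.1 - 1‖ ^ 2 * (nS np T * nm n.1) / (nm k * nm l.1 * Q) =
          ‖em K γ.1 - 1‖ ^ 2 * (nS np T * nm n.1 / nm k) / (nm l.1 * Q) := by
        field_simp
      rw [e1, e2]
      have e3 : G (nm n.1 / Z) * Q / (nS np T * nm n.1) =
          (nS np S * nS np T) ^ (-(1 / 2) : ℝ) * (nS np S / (nS np T * nm n.1)) ^ (1 / 2 : ℝ) *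
            nm n.1 ^ (-(1 / 2) : ℝ) * (G (nm n.1 / Z) * Q) := by
        rw [hp]
        ring
      rw [e3]
      ring
    · rw [mul_zero]
  have hNN : Nab P Z Q G k S (idS T) (fun x t => Thi K W * Ji G H t + Kx K W G H x t) =
      ∑' n, fN n := by
    unfold Nab sumC
    rw [← tsum_mul_left]
    refine tsum_congr fun n => ?_
    rw [hfN]
    dsimp only
    split_ifs with hc
    · have hn1 : 1 ≤ nm n.1 := gap_nm_one n.2
      have hn0 : 0 < nm n.1 := by linarith
      have hbn : idS T * n.1 ≠ ⊥ := mul_ne_zero hb0 n.2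
      have hbnC : Cp P (idS T * n.1) := gap_Cp_mul hbC hc
      have H3 := h3 K P (Q ^ θ) W G H hy hW hG hH S hS (idS T * n.1) k hbn hbnC hkS Q
        (nS np T * nm n.1 / nm k) (nS np T * nm n.1 / (nS np S * Z)) hQ0 (by positivity)
        (by positivity)
      have e0 : (∑ R₁ ∈ S.powerset, ∑ R₀ ∈ (SP K P).powerset, ha R₁ (idS T * n.1) * hk P k R₀ *
          (Q / (nS np R₁ * nS np R₀)) * (Thi K W * Ji G H (nm (idS T) * nm n.1 / (nS np S * Z)) +
          Kx K W G H (nm (idS T) * nm n.1 / (nm k * (nS np R₁ * nS np R₀) * Q))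
            (nm (idS T) * nm n.1 / (nS np S * Z)))) = 
          ∑' l : NI K, gs P S (idS T * n.1) k l.1 * (Q / nm l.1) *
            ∫ g : ℂ, gapΦ W G H (nS np T * nm n.1 / nm k)
              (nS np T * nm n.1 / (nS np S * Z)) (nm l.1 * Q) g := by
        refine Eq.trans ?_ H3.symm
        refine Finset.sum_congr rfl fun R₁ _ => Finset.sum_congr rfl fun R₀ _ => ?_
        have e4 : nm (idS T) * nm n.1 / (nm k * (nS np R₁ * nS np R₀) * Q) =
            nS np T * nm n.1 / nm k / (nS np R₁ * nS np R₀ * Q) := by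
          rw [hbN, div_div, mul_assoc (nm k)]
        rw [e4, hbN]
      rw [e0, ← tsum_mul_left, ← tsum_mul_left]
      refine tsum_congr fun l => ?_
      have hl1 : 1 ≤ nm l.1 := gap_nm_one l.2
      rw [gap_nm_mul, hbN]
      field_simp
    · rw [mul_zero]
  rw [hO, hNN]
  -- the final bound
  have hR0 : 0 ≤ (Q / nS np S) ^ (1 - j / 2) := Real.rpow_nonneg (by positivity) _
  have hdiff : |(∑' n, fO n) - ∑' n, fN n| ≤
      X.card * (Y.card * (CG * Q * (C₁ * (Q / nS np S) ^ (1 - j / 2)))) := by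
    refine gap_sub fO fN X _ ?_ ?_ ?_
    · intro n hn
      have h0 := gap_zero hG hZ0 (not_le.mp fun h => hn (hX n h))
      rw [hfO]
      dsimp only
      split_ifs with hc
      · simp [h0]
      · rfl
    · intro n hn
      have h0 := gap_zero hG hZ0 (not_le.mp fun h => hn (hX n h))
      rw [hfN]
      dsimp only
      split_ifs with hc
      · simp [h0]
      · rfl
    · intro n
      have hE0 : 0 ≤ (Y.card : ℝ) * (CG * Q * (C₁ * (Q / nS np S) ^ (1 - j / 2))) := by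
        positivity
      by_cases hc : Cp P n.1
      swap
      · rw [hfO, hfN]
        dsimp only
        rw [if_neg hc, if_neg hc, sub_zero, abs_zero]
        exact hE0
      by_cases hn3 : nm n.1 ≤ 3 * Z
      swap
      · have h0 := gap_zero hG hZ0 (not_le.mp hn3)
        rw [hfO, hfN]
        dsimp only
        rw [if_pos hc, if_pos hc, h0]
        simpa using hE0
      rw [hfO, hfN]
      dsimp only
      rw [if_pos hc, if_pos hc]
      have hn1 : 1 ≤ nm n.1 := gap_nm_one n.2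
      have hn0 : 0 < nm n.1 := by linarith
      have hbn : idS T * n.1 ≠ ⊥ := mul_ne_zero hb0 n.2
      have hbnC : Cp P (idS T * n.1) := gap_Cp_mul hbC hc
      refine gap_one P W G H k (idS T * n.1) S Q (nS np T * nm n.1 / nm k)
        (nS np T * nm n.1 / (nS np S * Z)) _ (CG * Q) _ ((4 * C₂ + 1) * Q ^ (θ + e))
        (by positivity) Y hY ?_ ?_ (fun l => gs P S (idS T * n.1) k l.1 * (2 / sd K) *
        (nm (idS T * n.1) / (nS np S * nm k * nm l.1))) ?_
      · have h5 : 1 ≤ nS np T * nm n.1 := one_le_mul_of_one_le_of_one_le ht1 hn1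
        rw [abs_div, abs_mul, abs_of_pos hQ0, abs_of_pos (by linarith : 0 < nS np T * nm n.1)]
        refine (div_le_self (by positivity) h5).trans ?_
        exact mul_le_mul_of_nonneg_right (HG _) hQ0.le
      · intro l g hne
        have hl1 : 1 ≤ nm l.1 := gap_nm_one l.2
        have h5 := H2 g (nS np T * nm n.1 / nm k) (nS np T * nm n.1 / (nS np S * Z)) (nm l.1 * Q)
          (by positivity) (by positivity) (by positivity) hne
        have e5 : nS np T * nm n.1 / nm k / (nS np T * nm n.1 / (nS np S * Z)) =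
            nS np S * Z / nm k := by
          field_simp
        rw [e5] at h5
        have h6 : nS np S * Z / nm k ≤ Q ^ θ * Z :=
          (div_le_self (by positivity) hk1).trans (mul_le_mul_of_nonneg_right hsy hZ0.le)
        have h7 : nS np T * nm n.1 / nm k ≤ Q ^ θ * (3 * Z) :=
          (div_le_self (by positivity) hk1).trans (mul_le_mul hty hn3 hn0.le (by positivity))
        have h8 : Q ^ θ * Z = Q ^ (θ + e) * Q := by
          rw [hZdef, ← Real.rpow_add hQ0]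
          nth_rewrite 3 [← Real.rpow_one Q]
          rw [← Real.rpow_add hQ0]
          congr 1
          ring
        have h9 : nm l.1 * Q ≤ C₂ * (4 * (Q ^ θ * Z)) := by
          refine h5.trans (mul_le_mul_of_nonneg_left ?_ hC₂)
          linarith
        rw [h8] at h9
        have h10 : nm l.1 * Q ≤ (4 * C₂ + 1) * Q ^ (θ + e) * Q := by
          have h11 : 0 ≤ Q ^ (θ + e) * Q := by positivity
          nlinarith
        exact le_of_mul_le_mul_right h10 hQ0
      · intro l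
        have hl1 : 1 ≤ nm l.1 := gap_nm_one l.2
        have h5 := H1 (Q ^ θ) Q Z hy hZ0 hNQ S hS (idS T * n.1) l.1 hbn hbnC l.2
        have key : ∀ g : ℂ, H (‖g‖ ^ 2) * G (‖g‖ ^ 2 * nm (idS T * n.1) / (nS np S * Z)) *
            w1 W (‖g - 1‖ ^ 2 * nm (idS T * n.1) / (nm k * nm l.1 * Q)) =
            gapΦ W G H (nS np T * nm n.1 / nm k) (nS np T * nm n.1 / (nS np S * Z))
              (nm l.1 * Q) g := by
          intro g
          unfold gapΦ
          rw [gap_nm_mul, hbN, mul_div_assoc]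
          have e2 : ‖g - 1‖ ^ 2 * (nS np T * nm n.1) / (nm k * nm l.1 * Q) =
              ‖g - 1‖ ^ 2 * (nS np T * nm n.1 / nm k) / (nm l.1 * Q) := by
            field_simp
          rw [e2]
        simp only [key] at h5
        exact h5
  refine hdiff.trans ?_
  have hRb : (Q / nS np S) ^ (1 - j / 2) ≤ Q ^ ((1 - θ) * (1 - j / 2)) := by
    have hj1 : 1 - j / 2 ≤ 0 := by
      rw [hjdef]
      push_cast
      have : (0 : ℝ) ≤ j₀ := Nat.cast_nonneg _
      linarith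
    rw [Real.rpow_mul hQ0.le]
    refine Real.rpow_le_rpow_of_nonpos (Real.rpow_pos_of_pos hQ0 _) ?_ hj1
    rw [le_div_iff₀ hs0]
    calc Q ^ (1 - θ) * nS np S ≤ Q ^ (1 - θ) * Q ^ θ :=
          mul_le_mul_of_nonneg_left hsy (by positivity)
      _ = Q := by
          rw [← Real.rpow_add hQ0]
          ring_nf
          exact Real.rpow_one Q
  have hEr : Q ^ (-1 : ℝ) ≤ Er Q 1 S T := by
    unfold Er
    have h5 : 1 ≤ nS np (S ∩ T) := by
      unfold nS
      have := Finset.prod_le_prod (s := S ∩ T) (f := fun _ => (1 : ℝ)) (g := fun p => np p)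
        (fun _ _ => zero_le_one) (fun p _ => gap_nm_one p.2.2)
      simpa using this
    have h6 : Q ^ θ ≤ Q := by
      calc Q ^ θ ≤ Q ^ (1 : ℝ) := Real.rpow_le_rpow_of_exponent_le hQ1 hθ1.le
        _ = Q := Real.rpow_one Q
    have h7 : nS np S * nS np T ≤ Q * Q :=
      mul_le_mul (hsy.trans h6) (hty.trans h6) ht0.le hQ0.le
    have h8 : (2 - 1 : ℝ) = 1 := by norm_num
    rw [h8, Real.rpow_one, Real.rpow_neg_one]
    calc Q⁻¹ = Q * (1 / (Q * Q)) := by
          field_simp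
      _ ≤ Q * (nS np (S ∩ T) / (nS np S * nS np T)) := by
          refine mul_le_mul_of_nonneg_left ?_ hQ0.le
          exact div_le_div₀ (by linarith) h5 (by positivity) h7
  have hpow : Z * Q ^ (θ + e) * Q * Q ^ ((1 - θ) * (1 - j / 2)) ≤ Q ^ (-1 : ℝ) := by
    have h5 : Z * Q ^ (θ + e) * Q * Q ^ ((1 - θ) * (1 - j / 2)) =
        Q ^ ((1 + e) + (θ + e) + 1 + (1 - θ) * (1 - j / 2)) := by
      rw [Real.rpow_add hQ0 ((1 + e) + (θ + e) + 1), Real.rpow_add hQ0 ((1 + e) + (θ + e)) 1,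
        Real.rpow_add hQ0 (1 + e) (θ + e), Real.rpow_one]
    rw [h5]
    refine Real.rpow_le_rpow_of_exponent_le hQ1 ?_
    have h6 : (1 - θ) * (1 - j / 2) = -((1 - θ) * (j / 2 - 1)) := by ring
    rw [h6]
    linarith
  calc (X.card : ℝ) * (Y.card * (CG * Q * (C₁ * (Q / nS np S) ^ (1 - j / 2)))) ≤
        (CD * (3 * Z)) * ((CD * ((4 * C₂ + 1) * Q ^ (θ + e))) *
          (CG * Q * (C₁ * Q ^ ((1 - θ) * (1 - j / 2))))) := by
        refine mul_le_mul hXc ?_ (by positivity) (by positivity)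
        refine mul_le_mul hYc ?_ (by positivity) (by positivity)
        exact mul_le_mul_of_nonneg_left (mul_le_mul_of_nonneg_left hRb hC₁) (by positivity)
    _ = 3 * CD * CD * (4 * C₂ + 1) * CG * C₁ *
          (Z * Q ^ (θ + e) * Q * Q ^ ((1 - θ) * (1 - j / 2))) := by ring
    _ ≤ 3 * CD * CD * (4 * C₂ + 1) * CG * C₁ * Er Q 1 S T :=
        mul_le_mul_of_nonneg_left (hpow.trans hEr) (by positivity)

end Pool.Agent.H8.HH
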